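import Pool.Agent.Helper28.BA.GoalsB

/-!
# B12: closure under limits in `L^q`
-/

open Complex MeasureTheory Set Filter Topology

namespace Pool.Agent.Helper65.BA

open Pool.Agent.Helper28.BA

/-- the norm in `L^q` -/
noncomputable def Nq (q : ℝ) (f : ℂ → ℂ) : ℝ := (eLpNorm f (ENNReal.ofReal q) volume).toReal

section
variable {q : ℝ} (hq : 1 < q)
include hq

theorem Nq_eq {f : ℂ → ℂ} (hf : Continuous f) (hc : HasCompactSupport f) :
    Nq q f = (∫ z, ‖f z‖ ^ q) ^ (1 / q) := by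
  have hq0 : 0 < q := by linarith
  have h1 : MemLp f (ENNReal.ofReal q) volume := hf.memLp_of_hasCompactSupport hc
  have h2 : ENNReal.ofReal q ≠ 0 := by
    rw [Ne, ENNReal.ofReal_eq_zero, not_le]
    exact hq0
  unfold Nq
  rw [h1.eLpNorm_eq_integral_rpow_norm h2 ENNReal.ofReal_ne_top, ENNReal.toReal_ofReal hq0.le,
    ENNReal.toReal_ofReal, one_div]
  exact Real.rpow_nonneg (integral_nonneg fun z => Real.rpow_nonneg (norm_nonneg _) _) _

theorem Nq_pow {f : ℂ → ℂ} (hf : Continuous f) (hc : HasCompactSupport f) :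
    Nq q f ^ q = ∫ z, ‖f z‖ ^ q := by
  have hq0 : 0 < q := by linarith
  rw [Nq_eq hq hf hc, ← Real.rpow_mul (integral_nonneg fun z => Real.rpow_nonneg (norm_nonneg _) _),
    one_div, inv_mul_cancel₀ hq0.ne', Real.rpow_one]

theorem Nq_nonneg (f : ℂ → ℂ) : 0 ≤ Nq q f := ENNReal.toReal_nonneg

theorem Nq_le {f : ℂ → ℂ} (hf : Continuous f) (hc : HasCompactSupport f) {d : ℝ} (hd : 0 ≤ d)
    (h : ∫ z, ‖f z‖ ^ q ≤ d ^ q) : Nq q f ≤ d := by
  have hq0 : 0 < q := by linarith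
  rw [← Nq_pow hq hf hc] at h
  exact (Real.rpow_le_rpow_iff (Nq_nonneg hq f) hd hq0).1 h

/-- Minkowski's inequality -/
theorem Nq_tri {f g : ℂ → ℂ} (hf : Continuous f) (hcf : HasCompactSupport f) (hg : Continuous g)
    (hcg : HasCompactSupport g) : Nq q f ≤ Nq q g + Nq q (fun z => g z - f z) := by
  have h1 : MemLp f (ENNReal.ofReal q) volume := hf.memLp_of_hasCompactSupport hcf
  have h2 : MemLp g (ENNReal.ofReal q) volume := hg.memLp_of_hasCompactSupport hcg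
  have h3 : MemLp (fun z => g z - f z) (ENNReal.ofReal q) volume := h2.sub h1
  have h4 : f = g - fun z => g z - f z := by
    funext z
    simp
  have h5 : eLpNorm f (ENNReal.ofReal q) volume ≤ eLpNorm g (ENNReal.ofReal q) volume +
      eLpNorm (fun z => g z - f z) (ENNReal.ofReal q) volume := by
    have h6 := eLpNorm_sub_le (p := ENNReal.ofReal q) h2.1 h3.1 (by
      rw [ENNReal.one_le_ofReal]
      exact hq.le)
    rwa [← h4] at h6
  unfold Nq
  rw [← ENNReal.toReal_add h2.2.ne h3.2.ne]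
  exact ENNReal.toReal_mono (ENNReal.add_ne_top.2 ⟨h2.2.ne, h3.2.ne⟩) h5

end

/-- closure under limits in `L^q` -/
theorem CLOS : S_CLOS := by
  intro q K hq hK X Φ hX hΦ hcX hcΦ H
  have hq0 : 0 < q := by linarith
  have hKq : 0 ≤ K ^ (1 / q) := Real.rpow_nonneg hK _
  have key : ∀ d : ℝ, 0 < d → Nq q X ≤ K ^ (1 / q) * Nq q Φ + (K ^ (1 / q) + 1) * d := by
    intro d hd
    obtain ⟨X', Φ', hX', hΦ', hcX', hcΦ', h1, h2, h3⟩ := H (d ^ q) (Real.rpow_pos_of_pos hd q)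
    have e1 : Nq q (fun z => X' z - X z) ≤ d :=
      Nq_le hq (hX'.sub hX) (hcX'.sub hcX) hd.le h1
    have e2 : Nq q (fun z => Φ' z - Φ z) ≤ d :=
      Nq_le hq (hΦ'.sub hΦ) (hcΦ'.sub hcΦ) hd.le h2
    have e3 : Nq q X' ≤ K ^ (1 / q) * Nq q Φ' := by
      refine Nq_le hq hX' hcX' (mul_nonneg hKq (Nq_nonneg hq _)) ?_
      rw [Real.mul_rpow hKq (Nq_nonneg hq _), ← Real.rpow_mul hK, one_div,
        inv_mul_cancel₀ hq0.ne', Real.rpow_one, Nq_pow hq hΦ' hcΦ']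
      exact h3
    have e4 := Nq_tri hq hX hcX hX' hcX'
    have e5 : Nq q Φ' ≤ Nq q Φ + Nq q (fun z => Φ' z - Φ z) := by
      have h := Nq_tri hq hΦ' hcΦ' hΦ hcΦ
      have e : Nq q (fun z => Φ z - Φ' z) = Nq q (fun z => Φ' z - Φ z) := by
        have e6 := Nq_eq hq (f := fun z => Φ z - Φ' z) (hΦ.sub hΦ') (hcΦ.sub hcΦ')
        have e7 := Nq_eq hq (f := fun z => Φ' z - Φ z) (hΦ'.sub hΦ) (hcΦ'.sub hcΦ)
        rw [e6, e7]
        refine congrArg (fun t : ℝ => t ^ (1 / q)) (integral_congr_ae (Eventually.of_forall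
          fun z => ?_))
        show ‖Φ z - Φ' z‖ ^ q = ‖Φ' z - Φ z‖ ^ q
        rw [norm_sub_rev]
      rwa [e] at h
    nlinarith [mul_le_mul_of_nonneg_left (e5.trans (add_le_add_right e2 _)) hKq]
  have hlim : Nq q X ≤ K ^ (1 / q) * Nq q Φ := by
    refine le_of_forall_pos_le_add fun ε hε => ?_
    have h := key (ε / (K ^ (1 / q) + 1)) (by positivity)
    rwa [mul_div_cancel₀ _ (by positivity : K ^ (1 / q) + 1 ≠ 0)] at h
  rw [← Nq_pow hq hX hcX, ← Nq_pow hq hΦ hcΦ]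
  refine (Real.rpow_le_rpow (Nq_nonneg hq X) hlim hq0.le).trans (le_of_eq ?_)
  rw [Real.mul_rpow hKq (Nq_nonneg hq _), ← Real.rpow_mul hK, one_div,
    inv_mul_cancel₀ hq0.ne', Real.rpow_one]

end Pool.Agent.Helper65.BA
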